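import Mathlib
import Pool.Agent.Helper298.Main

set_option autoImplicit false

namespace Pool.Agent.Results.MP_fed070_lc.CBSpec

/-- The initial segment of length `n` of `x : ω → ω`. -/
def initSeg (x : ℕ → ℕ) (n : ℕ) : List ℕ := (List.range n).map x

/-- A tree: a set of finite strings closed under initial segments. -/
def IsTree (T : Set (List ℕ)) : Prop := ∀ σ τ : List ℕ, σ <+: τ → τ ∈ T → σ ∈ T

/-- The set `[T]` of infinite paths of `T`. -/
def paths (T : Set (List ℕ)) : Set (ℕ → ℕ) := {x | ∀ n, initSeg x n ∈ T}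

/-- `P ⊆ ω^ω` is a computably bounded `Π⁰₁` class: `P = [T]` for a computable tree `T` having a
computable `g` such that `σ⌢i ∈ T` implies `i < g σ`. -/
def IsCBPi01 (P : Set (ℕ → ℕ)) : Prop :=
  ∃ T : Set (List ℕ), IsTree T ∧ ComputablePred (fun σ => σ ∈ T) ∧ P = paths T ∧
    ∃ g : List ℕ → ℕ, Computable g ∧ ∀ (σ : List ℕ) (i : ℕ), σ ++ [i] ∈ T → i < g σ

/-- A commutative ring with unity whose universe is the set `A ⊆ ω` is a computable ring:
the universe is a computable set and the ring operations are the restrictions of computable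
functions. -/
structure IsComputableRing (A : Set ℕ) [CommRing A] : Prop where
  universe_comp : ComputablePred (fun n => n ∈ A)
  add_comp : ∃ f : ℕ → ℕ → ℕ, Computable₂ f ∧ ∀ a b : A, f a b = ((a + b : A) : ℕ)
  mul_comp : ∃ f : ℕ → ℕ → ℕ, Computable₂ f ∧ ∀ a b : A, f a b = ((a * b : A) : ℕ)
  neg_comp : ∃ f : ℕ → ℕ, Computable f ∧ ∀ a : A, f a = ((-a : A) : ℕ)

open Classical in
/-- The characteristic function (on `ω`) of an ideal of a ring with universe `A ⊆ ω`. -/
noncomputable def charFn {A : Set ℕ} [CommRing A] (J : Ideal A) : ℕ → ℕ :=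
  fun n => if ∃ h : n ∈ A, (⟨n, h⟩ : A) ∈ J then 1 else 0

open Pool.Agent.Helper298.Wt Pool.Agent.Helper298.Spec Pool.Agent.Helper298.Lev
open Pool.Agent.Helper298.Ring Pool.Agent.Helper298.Trans Pool.Agent.Helper298.Main

theorem empty_case : ∃ (A : Set ℕ) (_ : CommRing A), IsComputableRing A ∧
    IsEmpty (PrimeSpectrum A) := by
  classical
  let e : ({0} : Set ℕ) ≃ PUnit.{1} := Equiv.ofUnique _ _
  letI : CommRing ({0} : Set ℕ) := e.commRing
  have hv : ∀ a : ({0} : Set ℕ), (a : ℕ) = 0 := fun a => a.2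
  refine ⟨{0}, inferInstance, ⟨?_, ?_, ?_, ?_⟩, ?_⟩
  · have h1 : PrimrecPred (fun n : ℕ => n = 0) := Primrec.eq.comp Primrec.id (Primrec.const 0)
    exact h1.computablePred.of_eq fun n => by simp
  · exact ⟨fun _ _ => 0, (Computable.const 0).to₂, fun a b => (hv _).symm⟩
  · exact ⟨fun _ _ => 0, (Computable.const 0).to₂, fun a b => (hv _).symm⟩
  · exact ⟨fun _ => 0, Computable.const 0, fun a => (hv _).symm⟩
  · haveI : Subsingleton ({0} : Set ℕ) := ⟨fun a b => Subtype.ext ((hv a).trans (hv b).symm)⟩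
    infer_instance

/-- Every computably bounded `Π⁰₁` class `P ⊆ ω^ω` represents `Spec(R)` for some computable
commutative ring `R` with unity. -/
theorem result (P : Set (ℕ → ℕ)) (hP : IsCBPi01 P) :
    ∃ (A : Set ℕ) (_ : CommRing A), IsComputableRing A ∧
      ∃ F : P ≃ PrimeSpectrum A, ∀ f : P,
        TuringEquivalent (charFn (F f).asIdeal : ℕ →. ℕ) ((f : ℕ → ℕ) : ℕ →. ℕ) := by
  classical
  obtain ⟨Tr, hpre, hTr, rfl, g, hg, hbd⟩ := hP
  by_cases hemp : (paths Tr).Nonempty
  · obtain ⟨x0, hx0⟩ := hemp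
    have hT : IsLev (TT Tr g) := isLev hpre hbd
    have hpath : ∀ x, x ∈ paths Tr ↔ IsPath (TT Tr g) x := fun x => (isPath_iff hpre hbd x).symm
    have hne : ∀ s, (TT Tr g s).Nonempty := fun s => ⟨_, (hpath x0).1 hx0 s⟩
    letI := ring (pr hT) (pr_surj hT)
    have hrep := rep_comp (pr hT) (pr_comp hT hne hTr hg)
    refine ⟨Car (pr hT), inferInstance, ⟨?_, ?_, ?_, ?_⟩, ?_⟩
    · exact car_comp (pr hT) (pr_comp hT hne hTr hg)
    · refine ⟨fun m n => rep (pr hT) (Encodable.encode (addI (TT Tr g) (dec m) (dec n))), ?_, ?_⟩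
      · exact hrep.comp (Computable.encode.comp ((addI_comp hTr hg).comp
          (dec_comp.comp Computable.fst) (dec_comp.comp Computable.snd)))
      · intro a b
        exact (add_val (pr hT) (pr_surj hT) (pr_add hT) a b).symm
    · refine ⟨fun m n => rep (pr hT) (Encodable.encode (mulI (TT Tr g) (dec m) (dec n))), ?_, ?_⟩
      · exact hrep.comp (Computable.encode.comp ((mulI_comp hTr hg).comp
          (dec_comp.comp Computable.fst) (dec_comp.comp Computable.snd)))
      · intro a b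
        exact (mul_val (pr hT) (pr_surj hT) (pr_mul hT) a b).symm
    · refine ⟨rep (pr hT), hrep, ?_⟩
      intro a
      exact (neg_val (pr hT) (pr_surj hT) (f := fun n => n) (pr_neg hT) a).symm
    · refine ⟨Equiv.ofBijective (fun f => ⟨Jx hT f, Jx_prime hT ((hpath _).1 f.2)⟩) ⟨?_, ?_⟩, ?_⟩
      · intro f f' h
        have h1 : Jx hT (f : ℕ → ℕ) = Jx hT (f' : ℕ → ℕ) := congrArg PrimeSpectrum.asIdeal h
        exact Subtype.ext (Jx_inj hT ((hpath _).1 f.2) ((hpath _).1 f'.2) h1)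
      · intro p
        obtain ⟨x, hx, hxp⟩ := Jx_surj hT hne p.asIdeal p.isPrime
        exact ⟨⟨x, (hpath x).2 hx⟩, PrimeSpectrum.ext hxp⟩
      · intro f
        have hf := (hpath _).1 f.2
        exact ⟨chi_red hT hne hTr hg hf, red_chi hT hne hTr hg hf⟩
  · obtain ⟨A, hA, h1, h2⟩ := empty_case
    haveI : IsEmpty (paths Tr) := ⟨fun x => hemp ⟨x.1, x.2⟩⟩
    exact ⟨A, hA, h1, Equiv.equivOfIsEmpty _ _, fun f => isEmptyElim f⟩

end Pool.Agent.Results.MP_fed070_lc.CBSpec
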